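import Mathlib
import Pool.Prelude.Def_H_9f781f72
import Pool.Agent.ExpPow.Count

/-! Mahler's exponential bound for `‖e^n‖` outside a power-saving exceptional set, from
Hermite-Padé approximation (type II) in long windows of exponents. -/

namespace Pool.Agent.Results.MP_3761db_nt.AlmostAll

theorem window_part (k : ℕ) (hk : 1 ≤ k) (θ c : ℝ) (hθ : 0 ≤ θ) (hc : 0 < c)
    (h : 1 + ((k : ℝ) ^ 2 - 1) * θ < c * k * (1 - (k + 1) * θ)) :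
    ∃ n₀ : ℕ, ∀ n ≥ n₀, {t : ℕ | n ≤ t ∧ (t : ℝ) ≤ n + (n : ℝ) ^ θ ∧
      distToNearestInt (Real.exp t) ≤ Real.exp (-(c * t))}.encard ≤ k := by
  obtain ⟨n₀, -, hn₀⟩ := ExpPow.window_card hk θ c hθ hc h
  refine ⟨n₀, fun n hn => ?_⟩
  set S := {t : ℕ | n ≤ t ∧ (t : ℝ) ≤ n + (n : ℝ) ^ θ ∧
    distToNearestInt (Real.exp t) ≤ Real.exp (-(c * t))} with hS
  have hfin : S.Finite := by
    refine (Set.finite_Iic (⌊(n : ℝ) + (n : ℝ) ^ θ⌋₊)).subset ?_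
    intro t ht
    exact Nat.le_floor ht.2.1
  have h1 := hn₀ n hn hfin.toFinset (fun t ht => (Set.Finite.mem_toFinset hfin).mp ht)
  rw [hfin.encard_eq_coe_toFinset_card]
  exact_mod_cast h1

theorem count_part (k : ℕ) (hk : 1 ≤ k) (θ c : ℝ) (hθ : 0 ≤ θ) (hc : 0 < c)
    (h : 1 + ((k : ℝ) ^ 2 - 1) * θ < c * k * (1 - (k + 1) * θ)) :
    ∃ C : ℝ, ∀ N : ℕ, 1 ≤ N →
      ({t : ℕ | t ≤ N ∧ distToNearestInt (Real.exp t) ≤ Real.exp (-(c * t))}.ncard : ℝ) ≤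
        C * (N : ℝ) ^ (1 - θ) := by
  obtain ⟨C, hC⟩ := ExpPow.count_bound hk θ c hθ hc h
  refine ⟨C, fun N hN => ?_⟩
  set S := {t : ℕ | t ≤ N ∧ distToNearestInt (Real.exp t) ≤ Real.exp (-(c * t))} with hS
  have hfin : S.Finite := (Set.finite_Iic N).subset (fun t ht => ht.1)
  have h1 := hC N hN hfin.toFinset (fun t ht => (Set.Finite.mem_toFinset hfin).mp ht)
  rw [Set.ncard_eq_toFinset_card S hfin]
  exact h1

/-- Parts (1), (2): the explicit trade-off; part (3): for every `c > 0` Mahler's bound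
`‖e^t‖ > e^{-ct}` holds for all but `O(N^{1-θ})` of the `t ≤ N`, for some `θ = θ(c) > 0`. -/
theorem result :
    (∀ k : ℕ, 1 ≤ k → ∀ θ c : ℝ, 0 ≤ θ → 0 < c →
      1 + ((k : ℝ) ^ 2 - 1) * θ < c * k * (1 - (k + 1) * θ) →
      (∃ n₀ : ℕ, ∀ n ≥ n₀, {t : ℕ | n ≤ t ∧ (t : ℝ) ≤ n + (n : ℝ) ^ θ ∧
        distToNearestInt (Real.exp t) ≤ Real.exp (-(c * t))}.encard ≤ k) ∧
      (∃ C : ℝ, ∀ N : ℕ, 1 ≤ N →
        ({t : ℕ | t ≤ N ∧ distToNearestInt (Real.exp t) ≤ Real.exp (-(c * t))}.ncard : ℝ) ≤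
          C * (N : ℝ) ^ (1 - θ))) ∧
    (∀ c : ℝ, 0 < c → ∃ θ : ℝ, 0 < θ ∧ ∃ C : ℝ, ∀ N : ℕ, 1 ≤ N →
      ({t : ℕ | t ≤ N ∧ distToNearestInt (Real.exp t) ≤ Real.exp (-(c * t))}.ncard : ℝ) ≤
        C * (N : ℝ) ^ (1 - θ)) := by
  refine ⟨fun k hk θ c hθ hc h => ⟨window_part k hk θ c hθ hc h, count_part k hk θ c hθ hc h⟩,
    ?_⟩
  intro c hc
  obtain ⟨k, hk⟩ := exists_nat_gt (1 / c)
  rw [div_lt_iff₀ hc] at hk
  have hk0 : 0 < k := by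
    rcases Nat.eq_zero_or_pos k with h0 | h0
    · rw [h0] at hk
      simp at hk
      linarith
    · exact h0
  have hk1 : (1 : ℝ) ≤ k := by exact_mod_cast hk0
  have hden : 0 < (k : ℝ) ^ 2 + c * k * (k + 1) := by positivity
  set θ := (c * k - 1) / ((k : ℝ) ^ 2 + c * k * (k + 1)) with hθ
  have hθ0 : 0 < θ := div_pos (by linarith) hden
  have hθ1 : θ * ((k : ℝ) ^ 2 + c * k * (k + 1)) = c * k - 1 := by
    rw [hθ]
    field_simp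
  refine ⟨θ, hθ0, count_part k hk0 θ c hθ0.le hc ?_⟩
  nlinarith

end Pool.Agent.Results.MP_3761db_nt.AlmostAll
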