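import Mathlib
import Pool.Prelude.Def_H_9f781f72
import Pool.Agent.ExpPowI.Counting3

/-! How often, and how close together, can `e^t` be extremely close to an integer? Type I
Hermite-Padé forms at arbitrary integer nodes, applied to the products `e^{(k-j) t₁ + j t₂}`. -/

namespace Pool.Agent.Results.MP_3761db_nt.FewExceptions

open Pool.Agent.ExpPowI

/-- from finsets to `ncard` -/
theorem ncard_le_of {E : Set ℕ} {M : ℕ} {X : ℝ} (hE : ∀ t ∈ E, t ≤ M)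
    (h : ∀ S : Finset ℕ, (∀ t ∈ S, t ∈ E) → (S.card : ℝ) ≤ X) : (E.ncard : ℝ) ≤ X := by
  have hfin : E.Finite := (Set.finite_Iic M).subset (fun t ht => hE t ht)
  rw [Set.ncard_eq_toFinset_card E hfin]
  exact h _ (fun t ht => (Set.Finite.mem_toFinset hfin).mp ht)

theorem result :
    -- (1) sparse exceptional sets for `c > 1`
    (∀ (k : ℕ) (c θ : ℝ), 1 ≤ k → (k : ℝ) < c → 0 ≤ θ →
      θ < k * (c - k) / ((k + 1) * (c - k + 1)) →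
      (∃ n₀ : ℕ, ∀ t₁ t₂ : ℕ, n₀ ≤ t₁ → t₁ < t₂ →
        distToNearestInt (Real.exp t₁) ≤ Real.exp (-(c * t₁)) →
        distToNearestInt (Real.exp t₂) ≤ Real.exp (-(c * t₂)) →
        (t₁ : ℝ) + (t₁ : ℝ) ^ θ < t₂) ∧
      (∃ C : ℝ, ∀ N : ℕ, 1 ≤ N →
        ({t : ℕ | t ≤ N ∧ distToNearestInt (Real.exp t) ≤ Real.exp (-(c * t))}.ncard : ℝ) ≤
          C * (N : ℝ) ^ (1 - θ))) ∧
    (∀ c : ℝ, 4 ≤ c → ∃ C : ℝ, ∀ N : ℕ, 1 ≤ N →
      ({t : ℕ | t ≤ N ∧ distToNearestInt (Real.exp t) ≤ Real.exp (-(c * t))}.ncard : ℝ) ≤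
        C * (N : ℝ) ^ (4 / c)) ∧
    -- (2) the gap principle at all levels, and polylogarithmic exceptional sets
    (∃ n₀ : ℕ, ∀ n : ℕ, n₀ ≤ n → ∀ W : ℝ, (Real.log n) ^ 20 ≤ W →
      20 * Real.log W ≤ Real.log n → ∀ t₁ t₂ : ℕ, t₁ < t₂ → t₂ ≤ 2 * n →
      (t₂ : ℝ) - t₁ ≤ n / W →
      Real.exp (-(10 * (Real.log n / Real.log W) * n)) ≤
        max (distToNearestInt (Real.exp t₁)) (distToNearestInt (Real.exp t₂))) ∧
    (∀ δ : ℝ, 0 < δ → δ ≤ 1 → ∃ C : ℝ, ∀ N : ℕ, 3 ≤ N →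
      ({t : ℕ | t ≤ N ∧ distToNearestInt (Real.exp t) ≤
        Real.exp (-(δ * (t * Real.log t / Real.log (Real.log t))))}.ncard : ℝ) ≤
          C * Real.log N ^ (21 / δ)) := by
  refine ⟨?_, ?_, ?_, ?_⟩
  · intro k c θ hk hkc hθ0 hθ
    obtain ⟨h1, C, hC⟩ := gap_general k hk c θ hkc hθ0 hθ
    exact ⟨h1, C, fun N hN => ncard_le_of (fun t ht => ht.1) (hC N hN)⟩
  · intro c hc
    obtain ⟨C, hC⟩ := few_large_c c hc
    exact ⟨C, fun N hN => ncard_le_of (fun t ht => ht.1) (hC N hN)⟩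
  · obtain ⟨n₀, -, hn₀⟩ := pair_gap
    exact ⟨n₀, fun n hn W h1 h2 t₁ t₂ h3 h4 h5 =>
      hn₀ n hn W h1 h2 t₁ t₂ h3 h4 h5 _ (le_max_left _ _) (le_max_right _ _)⟩
  · intro δ h0 h1
    obtain ⟨C, hC⟩ := few_polylog δ h0 h1
    exact ⟨C, fun N hN => ncard_le_of (fun t ht => ht.1) (hC N hN)⟩

end Pool.Agent.Results.MP_3761db_nt.FewExceptions
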