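import Mathlib
import Pool.Prelude.Def_H_9f781f72
import Pool.Agent.ExpPowI.Counting3

/-! How many `t` in a short window can have `e^t` extremely close to an integer? Type I
Hermite-Padé forms at arbitrary integer nodes, applied to `k + 1` integers of the window. -/

namespace Pool.Agent.Results.MP_3761db_nt.ShortWindows

open Pool.Agent.ExpPowI

/-- from finsets to `ncard` -/
theorem ncard_le_of {E : Set ℕ} {M : ℕ} {X : ℝ} (hE : ∀ t ∈ E, t ≤ M)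
    (h : ∀ S : Finset ℕ, (∀ t ∈ S, t ∈ E) → (S.card : ℝ) ≤ X) : (E.ncard : ℝ) ≤ X := by
  have hfin : E.Finite := (Set.finite_Iic M).subset (fun t ht => hE t ht)
  rw [Set.ncard_eq_toFinset_card E hfin]
  exact h _ (fun t ht => (Set.Finite.mem_toFinset hfin).mp ht)

theorem result :
    -- (1) windows of length at most `log n`
    (∃ n₀ : ℕ, ∀ n : ℕ, n₀ ≤ n →
      (∀ k h : ℕ, 1 ≤ k → k ≤ h → h ≤ 2 * k → (h : ℝ) ≤ Real.log n → ∀ S : Finset ℕ,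
        k + 1 ≤ S.card → (∀ t ∈ S, n ≤ t ∧ t ≤ n + h) → ∃ t ∈ S,
          Real.exp (-(10 * n / k * (1 + ((h : ℝ) - k) * Real.log h / Real.log n))) ≤
            distToNearestInt (Real.exp t)) ∧
      Real.log n / Real.log (Real.log n) ≤
        ({t : ℕ | n ≤ t ∧ (t : ℝ) ≤ n + Real.log n ∧
          Real.exp (-(22 * (t / Real.log t))) ≤ distToNearestInt (Real.exp t)}.ncard : ℝ)) ∧
    -- (2) windows, `0 < c ≤ 1`
    (∃ n₀ : ℕ, ∀ n : ℕ, n₀ ≤ n → ∀ c : ℝ, 0 < c → c ≤ 1 → ∀ h : ℕ,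
      ((h : ℝ) * Real.log h ≤ Real.log n ∨ Real.log h ≤ (c / 15) ^ 2 * Real.log n) →
      ({t : ℕ | n ≤ t ∧ t ≤ n + h ∧
        distToNearestInt (Real.exp t) ≤ Real.exp (-(c * t))}.ncard : ℝ) ≤ 10 / c) ∧
    -- (3) counting, uniformly in `0 < c ≤ 1`
    (∃ T₀ : ℕ, ∀ T : ℕ, T₀ ≤ T → ∀ c : ℝ, 0 < c → c ≤ 1 →
      ({t : ℕ | t ≤ T ∧ distToNearestInt (Real.exp t) ≤ Real.exp (-(c * t))}.ncard : ℝ) ≤
        40 / c * (T * Real.log (Real.log T) / Real.log T) ∧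
      ({t : ℕ | t ≤ T ∧ distToNearestInt (Real.exp t) ≤ Real.exp (-(c * t))}.ncard : ℝ) ≤
        40 / c * (T : ℝ) ^ (1 - (c / 22) ^ 2)) := by
  refine ⟨?_, ?_, ?_⟩
  · obtain ⟨n₀, -, hn₀⟩ := short_dense
    obtain ⟨n₁, hn₁⟩ := short_many
    refine ⟨max n₀ n₁, fun n hn => ⟨hn₀ n ((le_max_left _ _).trans hn), ?_⟩⟩
    set E := {t : ℕ | n ≤ t ∧ (t : ℝ) ≤ n + Real.log n ∧
      Real.exp (-(22 * (t / Real.log t))) ≤ distToNearestInt (Real.exp t)} with hE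
    have hfin : E.Finite := by
      refine (Set.finite_Iic ⌊(n : ℝ) + Real.log n⌋₊).subset (fun t ht => ?_)
      exact Nat.le_floor ht.2.1
    rw [Set.ncard_eq_toFinset_card E hfin]
    exact hn₁ n ((le_max_right _ _).trans hn) hfin.toFinset
      (fun t h1 h2 h3 => (Set.Finite.mem_toFinset hfin).mpr ⟨h1, h2, h3⟩)
  · obtain ⟨n₀, -, hn₀⟩ := window_few
    exact ⟨n₀, fun n hn c hc hc1 h hor =>
      ncard_le_of (M := n + h) (fun t ht => ht.2.1) (hn₀ n hn c hc hc1 h hor)⟩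
  · obtain ⟨T₀, hT₀⟩ := few_small_c
    exact ⟨T₀, fun T hT c hc hc1 =>
      ⟨ncard_le_of (fun t ht => ht.1) (fun S hS => (hT₀ T hT c hc hc1 S hS).1),
        ncard_le_of (fun t ht => ht.1) (fun S hS => (hT₀ T hT c hc hc1 S hS).2)⟩⟩

end Pool.Agent.Results.MP_3761db_nt.ShortWindows
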